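import Pool.Agent.K6.H34.TQ.Main
import Pool.Agent.W307.RT.Main4
import Pool.Agent.W307.RT.Main6
import Pool.Agent.K6.H86.MR.Metric

set_option autoImplicit false

/-!
# The ranks in generic thin sequences of elliptic curves with torsion `Z/2 x Z/2`, `Z/2 x Z/4`, `Z/2 x Z/6`

Let `A_0, A_1, …` be any sequence of real `2 x 2` matrices of bounded eccentricity (`|entries| ≤ Q_k`, `Q_k ≥ 1`,
`|det A_k| ≥ c Q_k ^ 2`), for instance scalar matrices `v_k`, or multiplications by complex numbers `λ_k` such as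
`λ ^ k`. For a point `x` of the plane let `(a_k, b_k)` be the integer parts of the coordinates of `A_k x`, and let
`E_k` be the elliptic curve

* `y² = x (x - a_k) (x - b_k)` (full 2-torsion), or
* `y² = x (x + a_k²) (x + b_k²)`, `(a_k, b_k) = 1` (torsion containing `Z/2 x Z/4`), or
* `y² = x (x + a_k³ (a_k + 2 b_k)) (x + b_k³ (b_k + 2 a_k))`, `(a_k, b_k) = 1` (torsion containing `Z/2 x Z/6`).

Then for almost all `x` the numbers `4 ^ rank E_k` (`2 ^ rank E_k` for the other two families) are bounded on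
average along the sequence, in the sense that their sum against every given summable weight is finite; and
`rank E_k ≤ (1 / 2 + ε) log₂ k` (`≤ (1 + ε) log₂ k` for the other two) for all large `k`. There is no condition on
the growth of the sequence, and no loss that depends on the height of the curves.

Proof. The averages of `4 ^ rank` and `2 ^ rank` over the boxes `|a|, |b| ≤ N` are bounded (helper34 and team for the
first family, starting modules `W307.RT` for the others); the pairs `(a_k, b_k)` with `x` in a fixed box have a density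
that is bounded by a constant times the uniform density on a box; monotone convergence.
-/

namespace Pool.Agent.Results.MP_9e6228_nt.GenericSequences

open Finset Filter MeasureTheory

/-- the three families -/
inductive Family
  | two
  | four
  | six

/-- the curve `y² = x (x - A) (x - B)` -/
def E (A B : ℤ) : WeierstrassCurve ℚ := ⟨0, -((A : ℚ) + B), 0, (A : ℚ) * B, 0⟩

/-- the curve of the family with the parameters `a, b` -/
def curve : Family → ℤ → ℤ → WeierstrassCurve ℚ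
  | .two, a, b => E a b
  | .four, a, b => E (-(a ^ 2)) (-(b ^ 2))
  | .six, a, b => E (-(a ^ 3 * (a + 2 * b))) (-(b ^ 3 * (b + 2 * a)))

/-- the admissible parameters: the curve is nonsingular, and `a`, `b` are coprime in the second and third family -/
def Adm : Family → ℤ → ℤ → Prop
  | .two, a, b => a ≠ 0 ∧ b ≠ 0 ∧ a ≠ b
  | .four, a, b => IsCoprime a b ∧ a ^ 2 ≠ 0 ∧ b ^ 2 ≠ 0 ∧ a ^ 2 ≠ b ^ 2
  | .six, a, b => IsCoprime a b ∧ a ^ 3 * (a + 2 * b) ≠ 0 ∧ b ^ 3 * (b + 2 * a) ≠ 0 ∧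
      a ^ 3 * (a + 2 * b) ≠ b ^ 3 * (b + 2 * a)

/-- `4` for the first family, `2` for the others -/
def base : Family → ℝ
  | .two => 4
  | .four => 2
  | .six => 2

/-- the rank of the group of the rational points -/
noncomputable def rank (T : Family) (a b : ℤ) : ℕ := Module.finrank ℤ (curve T a b).toAffine.Point

open Classical in
/-- the function whose averages are bounded -/
noncomputable def F (T : Family) (a b : ℤ) : ℝ := if Adm T a b then base T ^ rank T a b else 0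

lemma base_pos (T : Family) : 1 < base T := by
  cases T <;> norm_num [base]

lemma F_nonneg (T : Family) (a b : ℤ) : 0 ≤ F T a b := by
  unfold F
  split_ifs
  · have := base_pos T
    positivity
  · exact le_rfl

lemma boxes (T : Family) : ∃ C : ℝ, ∀ N : ℕ, 1 ≤ N →
    ∑ t ∈ Icc (-(N : ℤ)) N ×ˢ Icc (-(N : ℤ)) N, F T t.1 t.2 ≤ C * (N : ℝ) ^ 2 := by
  classical
  cases T
  · obtain ⟨C, -, h⟩ := Pool.Agent.K6.H34.TQ.box2
    refine ⟨C, fun N hN => le_trans (le_of_eq ?_) (h N hN)⟩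
    rw [Finset.sum_filter]
    apply Finset.sum_congr rfl
    intro t _
    unfold F
    by_cases h1 : t.1 ≠ 0 ∧ t.2 ≠ 0 ∧ t.1 ≠ t.2
    · rw [if_pos h1, if_pos (show Adm .two t.1 t.2 from h1)]
      rfl
    · rw [if_neg h1, if_neg (show ¬ Adm .two t.1 t.2 from h1)]
  · obtain ⟨C, -, h⟩ := Pool.Agent.W307.RT.box4
    refine ⟨C, fun N hN => le_trans (le_of_eq ?_) (h N hN)⟩
    rw [Finset.sum_filter]
    apply Finset.sum_congr rfl
    intro t _
    unfold F
    by_cases h1 : IsCoprime t.1 t.2 ∧ t.1 ^ 2 ≠ 0 ∧ t.2 ^ 2 ≠ 0 ∧ t.1 ^ 2 ≠ t.2 ^ 2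
    · rw [if_pos (show Adm .four t.1 t.2 from h1)]
      rw [if_pos]
      · rfl
      · exact h1
    · rw [if_neg (show ¬ Adm .four t.1 t.2 from h1)]
      rw [if_neg]
      exact h1
  · obtain ⟨C, -, h⟩ := Pool.Agent.W307.RT.box6
    refine ⟨C, fun N hN => le_trans (le_of_eq ?_) (h N hN)⟩
    rw [Finset.sum_filter]
    apply Finset.sum_congr rfl
    intro t _
    unfold F
    by_cases h1 : IsCoprime t.1 t.2 ∧ t.1 ^ 3 * (t.1 + 2 * t.2) ≠ 0 ∧ t.2 ^ 3 * (t.2 + 2 * t.1) ≠ 0 ∧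
        t.1 ^ 3 * (t.1 + 2 * t.2) ≠ t.2 ^ 3 * (t.2 + 2 * t.1)
    · rw [if_pos (show Adm .six t.1 t.2 from h1)]
      rw [if_pos]
      · rfl
      · exact h1
    · rw [if_neg (show ¬ Adm .six t.1 t.2 from h1)]
      rw [if_neg]
      exact h1

/-- **Theorem.** Ranks in generic thin sequences of elliptic curves of the three families. -/
theorem result (T : Family) (c : ℝ) (hc : 0 < c) (Q : ℕ → ℝ) (hQ : ∀ k, 1 ≤ Q k)
    (A : ℕ → Matrix (Fin 2) (Fin 2) ℝ) (hA : ∀ k i j, |A k i j| ≤ Q k) (hdet : ∀ k, c * Q k ^ 2 ≤ |(A k).det|) :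
    (∀ w : ℕ → ℝ, (∀ k, 0 ≤ w k) → Summable w → ∀ᵐ x : Fin 2 → ℝ,
      Summable fun k => w k * F T ⌊((A k).mulVec x) 0⌋ ⌊((A k).mulVec x) 1⌋) ∧
    ∀ᵐ x : Fin 2 → ℝ, ∀ ε : ℝ, 0 < ε → ∀ᶠ k : ℕ in atTop,
      Adm T ⌊((A k).mulVec x) 0⌋ ⌊((A k).mulVec x) 1⌋ →
      (rank T ⌊((A k).mulVec x) 0⌋ ⌊((A k).mulVec x) 1⌋ : ℝ) ≤ (1 + ε) * Real.log k / Real.log (base T) := by
  obtain ⟨C, hC⟩ := boxes T
  have h1 : ∀ w : ℕ → ℝ, (∀ k, 0 ≤ w k) → Summable w → ∀ᵐ x : Fin 2 → ℝ,
      Summable fun k => w k * F T ⌊((A k).mulVec x) 0⌋ ⌊((A k).mulVec x) 1⌋ := fun w hw0 hw =>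
    Pool.Agent.K6.H86.MR.ae_summable (F T) (F_nonneg T) C hC c hc Q hQ A hA hdet w hw0 hw
  refine ⟨h1, ?_⟩
  have h2 : ∀ m : ℕ, ∀ᵐ x : Fin 2 → ℝ, Summable fun k : ℕ => (1 / (k : ℝ) ^ (1 + 1 / ((m : ℝ) + 1))) *
      F T ⌊((A k).mulVec x) 0⌋ ⌊((A k).mulVec x) 1⌋ := by
    intro m
    apply h1 _ (fun k => by positivity)
    apply Real.summable_one_div_nat_rpow.2
    have : (0 : ℝ) < 1 / ((m : ℝ) + 1) := by positivity
    linarith
  filter_upwards [ae_all_iff.2 h2] with x hx ε hε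
  obtain ⟨m, hm⟩ := exists_nat_one_div_lt hε
  have h3 := (hx m).tendsto_atTop_zero
  filter_upwards [h3.eventually_lt_const one_pos, eventually_ge_atTop 1] with k hk hk1 hadm
  have hkr : (1 : ℝ) ≤ k := by exact_mod_cast hk1
  have hkp : (0 : ℝ) < (k : ℝ) ^ (1 + 1 / ((m : ℝ) + 1)) := by positivity
  rw [one_div, inv_mul_lt_iff₀ hkp, mul_one] at hk
  unfold F at hk
  rw [if_pos hadm] at hk
  have hb := base_pos T
  have hlb : 0 < Real.log (base T) := Real.log_pos hb
  have hlk : 0 ≤ Real.log k := Real.log_nonneg hkr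
  rw [le_div_iff₀ hlb]
  have h4 := Real.log_lt_log (by positivity) hk
  rw [Real.log_pow, Real.log_rpow (by linarith)] at h4
  calc _ ≤ (1 + 1 / ((m : ℝ) + 1)) * Real.log k := h4.le
    _ ≤ (1 + ε) * Real.log k := mul_le_mul_of_nonneg_right (by linarith) hlk

end Pool.Agent.Results.MP_9e6228_nt.GenericSequences
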