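import Mathlib
import Pool.Agent.K6.H34.TQ.Main

/-!
# The average of `4 ^ rank` over the elliptic curves with torsion group `Z/2 x Z/2` is bounded

All elliptic curves over `ℚ` whose group of rational points has torsion subgroup isomorphic to
`Z/2 x Z/2`, ordered by height: the number of these curves of height at most `H` tends to infinity
with `H`, and the second moment of `2 ^ rank`, that is the average of `4 ^ rank`, over them is
bounded by a constant. The same holds for all the elliptic curves with full rational 2-torsion.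
-/

set_option autoImplicit false

namespace Pool.Agent.Results.MP_9e6228_nt.TorsionTwoTwo

open Finset Filter

/-- the curve `y² = x³ + A x + B` over `ℚ` -/
def E (A B : ℤ) : WeierstrassCurve ℚ := ⟨0, 0, 0, (A : ℚ), (B : ℚ)⟩

open Classical in
/-- The pairs `(A, B)` of integers such that `4 A³ + 27 B² ≠ 0`, there is no prime `p` with
`p⁴ ∣ A` and `p⁶ ∣ B`, and the height `max (4 |A|³) (27 B²)` is at most `H`. (The bounds
`|A|, |B| ≤ H` follow from the bound of the height. Every elliptic curve over `ℚ` is isomorphic to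
`E A B` for exactly one pair with the first two properties.) -/
noncomputable def Curves (H : ℕ) : Finset (ℤ × ℤ) :=
  ((Icc (-(H : ℤ)) H) ×ˢ (Icc (-(H : ℤ)) H)).filter (fun c : ℤ × ℤ =>
    4 * c.1 ^ 3 + 27 * c.2 ^ 2 ≠ 0 ∧ 4 * |c.1| ^ 3 ≤ H ∧ 27 * c.2 ^ 2 ≤ H ∧
    (∀ p : ℕ, p.Prime → ¬ ((p : ℤ) ^ 4 ∣ c.1 ∧ (p : ℤ) ^ 6 ∣ c.2)))

open Classical in
/-- The curves of height at most `H` whose torsion group over `ℚ` is isomorphic to `Z/2 x Z/2`. -/
noncomputable def FamX (H : ℕ) : Finset (ℤ × ℤ) :=
  (Curves H).filter (fun c : ℤ × ℤ =>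
    Nonempty (ZMod 2 × ZMod 2 ≃+ AddCommGroup.torsion (E c.1 c.2).toAffine.Point))

open Classical in
/-- The curves of height at most `H` with full rational 2-torsion: `Z/2 x Z/2` embeds in the group
of the rational points. -/
noncomputable def Fam (H : ℕ) : Finset (ℤ × ℤ) :=
  (Curves H).filter (fun c : ℤ × ℤ =>
    ∃ f : ZMod 2 × ZMod 2 →+ (E c.1 c.2).toAffine.Point, Function.Injective f)

lemma FamX_eq (H : ℕ) : FamX H = Pool.Agent.K6.H34.TT.FamX H := by
  classical
  unfold FamX Curves Pool.Agent.K6.H34.TT.FamX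
  rw [filter_filter]
  apply filter_congr
  intro c _
  show _ ↔ _
  unfold E Pool.Agent.K6.H34.TT.E
  tauto

lemma Fam_eq (H : ℕ) : Fam H = Pool.Agent.K6.H34.TT.Fam H := by
  classical
  unfold Fam Curves Pool.Agent.K6.H34.TT.Fam
  rw [filter_filter]
  apply filter_congr
  intro c _
  unfold E Pool.Agent.K6.H34.TT.E
  tauto

/-- **Theorem.** The number of the elliptic curves over `ℚ` of height at most `H` with torsion group
`Z/2 x Z/2` tends to infinity with `H`, and the average of `4 ^ rank` over them is bounded. The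
average of `4 ^ rank` over all the elliptic curves over `ℚ` of height at most `H` with full rational
2-torsion is also bounded. -/
theorem result : Tendsto (fun H : ℕ => (FamX H).card) atTop atTop ∧
    (∃ C : ℝ, ∀ H : ℕ, ∑ c ∈ FamX H, (4 : ℝ) ^ Module.finrank ℤ (E c.1 c.2).toAffine.Point ≤
      C * (FamX H).card) ∧
    (∃ C : ℝ, ∀ H : ℕ, ∑ c ∈ Fam H, (4 : ℝ) ^ Module.finrank ℤ (E c.1 c.2).toAffine.Point ≤
      C * (Fam H).card) := by
  simp only [FamX_eq, Fam_eq]
  exact ⟨Pool.Agent.K6.H34.TQ.cardX, Pool.Agent.K6.H34.TQ.mainX, Pool.Agent.K6.H34.TQ.main2⟩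

end Pool.Agent.Results.MP_9e6228_nt.TorsionTwoTwo
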